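import Mathlib

/-!
# Feedback vertex sets and cycle packings: reductions
-/

namespace Pool.Agent.Helper19.Jones

open SimpleGraph

variable {V : Type*}

/-- The graph `G` with all edges which are not inside `S` removed. -/
def res (G : SimpleGraph V) (S : Set V) : SimpleGraph V where
  Adj x y := G.Adj x y ∧ x ∈ S ∧ y ∈ S
  symm := ⟨fun _ _ h => ⟨h.1.symm, h.2.2, h.2.1⟩⟩
  loopless := ⟨fun _ h => h.1.ne rfl⟩

theorem res_adj {G : SimpleGraph V} {S : Set V} {x y : V} :
    (res G S).Adj x y ↔ G.Adj x y ∧ x ∈ S ∧ y ∈ S := Iff.rfl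

theorem res_mono {G G' : SimpleGraph V} {S S' : Set V} (h : G ≤ G') (hS : S ⊆ S') :
    res G S ≤ res G' S' := fun _ _ h1 => ⟨h h1.1, hS h1.2.1, hS h1.2.2⟩

theorem res_le {G : SimpleGraph V} {S : Set V} : res G S ≤ G := fun _ _ h1 => h1.1

theorem res_res {G : SimpleGraph V} {S S' : Set V} : res (res G S) S' = res G (S ∩ S') := by
  ext x y
  simp only [res_adj, Set.mem_inter_iff]
  tauto

theorem eq_of_isolated_reachable {H : SimpleGraph V} {w x : V} (h : ∀ y, ¬ H.Adj w y)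
    (hr : H.Reachable w x) : w = x := by
  obtain ⟨p⟩ := hr
  cases p with
  | nil => rfl
  | cons hadj _ => exact absurd hadj (h _)

/-- A vertex of degree at most one may be removed. -/
theorem pend {H : SimpleGraph V} {w : V} (h1 : ∀ x y, H.Adj w x → H.Adj w y → x = y)
    (h2 : (res H {w}ᶜ).IsAcyclic) : H.IsAcyclic := by
  by_cases hx : ∃ x, H.Adj w x
  · obtain ⟨x, hx⟩ := hx
    have e : H = res H {w}ᶜ ⊔ edge w x := by
      ext y z
      rw [sup_adj, res_adj, edge_adj]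
      simp only [Set.mem_compl_iff, Set.mem_singleton_iff]
      constructor
      · intro h
        by_cases hy : y = w
        · subst hy
          right
          exact ⟨Or.inl ⟨rfl, h1 _ _ h hx⟩, h.ne⟩
        · by_cases hz : z = w
          · subst hz
            right
            exact ⟨Or.inr ⟨h1 _ _ h.symm hx, rfl⟩, h.ne⟩
          · exact Or.inl ⟨h, hy, hz⟩
      · rintro (⟨h, -⟩ | ⟨⟨rfl, rfl⟩ | ⟨rfl, rfl⟩, -⟩)
        · exact h
        · exact hx
        · exact hx.symm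
    rw [e, isAcyclic_sup_fromEdgeSet_iff]
    refine ⟨h2, fun hr => ?_⟩
    exact absurd (eq_of_isolated_reachable (H := res H {w}ᶜ) (fun y hy => hy.2.1 rfl) hr) hx.ne
  · have e : H = res H {w}ᶜ := by
      ext y z
      rw [res_adj]
      simp only [Set.mem_compl_iff, Set.mem_singleton_iff]
      refine ⟨fun h => ⟨h, fun hy => hx ⟨z, hy ▸ h⟩, fun hz => hx ⟨y, hz ▸ h.symm⟩⟩, fun h => h.1⟩
    rw [e]
    exact h2

/-- Subdividing an edge does not change acyclicity. -/
theorem subdiv {H : SimpleGraph V} {v a b : V} (hv : ∀ y, ¬ H.Adj v y) (hva : v ≠ a) (hvb : v ≠ b)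
    (hab : a ≠ b) (hadj : ¬ H.Adj a b) :
    (H ⊔ edge v a ⊔ edge v b).IsAcyclic ↔ (H ⊔ edge a b).IsAcyclic := by
  have hr : (H ⊔ edge v a).Reachable v b ↔ H.Reachable a b := by
    constructor
    · rintro ⟨p⟩
      have key : ∀ {z y : V} (p : (H ⊔ edge v a).Walk z y), (z = v ∨ H.Reachable a z) →
          (y = v ∨ H.Reachable a y) := by
        intro z y p
        induction p with
        | nil => exact id
        | @cons u w _ h _ ih =>
          intro hu
          apply ih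
          rw [sup_adj, edge_adj] at h
          rcases h with h | ⟨⟨rfl, rfl⟩ | ⟨rfl, rfl⟩, -⟩
          · rcases hu with rfl | hu
            · exact absurd h (hv _)
            · exact Or.inr (hu.trans h.reachable)
          · exact Or.inr (Reachable.refl _)
          · exact Or.inl rfl
      exact (key p (Or.inl rfl)).resolve_left (Ne.symm hvb)
    · intro h
      have h1 : (H ⊔ edge v a).Adj v a := by
        rw [sup_adj, edge_adj]
        exact Or.inr ⟨Or.inl ⟨rfl, rfl⟩, hva⟩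
      exact h1.reachable.trans (h.mono le_sup_left)
  rw [isAcyclic_sup_fromEdgeSet_iff, isAcyclic_sup_fromEdgeSet_iff, isAcyclic_sup_fromEdgeSet_iff,
    hr]
  have h1 : ¬ (H ⊔ edge v a).Adj v b := by
    rw [sup_adj, edge_adj]
    rintro (h | ⟨⟨-, h⟩ | ⟨h, -⟩, -⟩)
    · exact hv _ h
    · exact hab h.symm
    · exact hva h
  constructor
  · rintro ⟨⟨h2, -⟩, h3⟩
    refine ⟨h2, fun h4 => ?_⟩
    rcases h3 h4 with h5 | h5
    · exact absurd h5 hvb
    · exact absurd h5 h1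
  · rintro ⟨h2, h3⟩
    refine ⟨⟨h2, fun h4 => Or.inl (eq_of_isolated_reachable hv h4)⟩, fun h4 => ?_⟩
    rcases h3 h4 with h5 | h5
    · exact absurd h5 hab
    · exact absurd h5 hadj

/-- There are `k` disjoint sets of vertices each of which contains a cycle. -/
def Pk (G : SimpleGraph V) (k : ℕ) : Prop :=
  ∃ S : Fin k → Set V, (∀ i j, i ≠ j → Disjoint (S i) (S j)) ∧ ∀ i, ¬ (res G (S i)).IsAcyclic

/-- There is a feedback vertex set with at most `n` elements. -/
def Fv (G : SimpleGraph V) (n : ℕ) : Prop :=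
  ∃ X : Finset V, X.card ≤ n ∧ (res G (X : Set V)ᶜ).IsAcyclic

/-- The inequality `cc ≤ 2 cp`. -/
def Good (G : SimpleGraph V) : Prop := ∃ k, Pk G k ∧ Fv G (2 * k)

theorem Good.bot : Good (⊥ : SimpleGraph V) := by
  refine ⟨0, ⟨fun i => i.elim0, fun i => i.elim0, fun i => i.elim0⟩, ⟨∅, le_rfl, ?_⟩⟩
  exact IsAcyclic.anti res_le isAcyclic_bot

/-- Vertices of degree at most one. -/
theorem Good.deg1 {G : SimpleGraph V} {v : V} (h1 : ∀ x y, G.Adj v x → G.Adj v y → x = y)
    (h : Good (res G {v}ᶜ)) : Good G := by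
  obtain ⟨k, ⟨S, hS1, hS2⟩, ⟨X, hX1, hX2⟩⟩ := h
  refine ⟨k, ⟨S, hS1, fun i hi => hS2 i (IsAcyclic.anti (res_mono res_le (Set.Subset.refl _)) hi)⟩,
    ⟨X, hX1, ?_⟩⟩
  refine pend (w := v) (fun x y hx hy => h1 x y hx.1 hy.1) ?_
  rw [res_res] at hX2 ⊢
  rw [Set.inter_comm]
  exact hX2

/-- Removal of a cycle at the cost of two vertices. -/
theorem Good.red {G : SimpleGraph V} {S0 : Set V} {X0 : Finset V}
    (h1 : ¬ (res G S0).IsAcyclic) (h2 : X0.card ≤ 2)
    (h3 : ∀ X : Set V, (res G (S0 ∪ X)ᶜ).IsAcyclic → (res G (X0 ∪ X)ᶜ).IsAcyclic)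
    (h : Good (res G S0ᶜ)) : Good G := by
  classical
  obtain ⟨k, ⟨S, hS1, hS2⟩, ⟨X, hX1, hX2⟩⟩ := h
  refine ⟨k + 1, ⟨Fin.cons S0 fun i => S i \ S0, ?_, ?_⟩, ⟨X0 ∪ X, ?_, ?_⟩⟩
  · intro i j hij
    refine Fin.cases ?_ (fun i => ?_) i (motive := fun i => i ≠ j → Disjoint
      ((Fin.cons S0 fun i => S i \ S0 : Fin (k + 1) → Set V) i) _) hij
    · intro hij
      refine Fin.cases ?_ (fun j => ?_) j (motive := fun j => 0 ≠ j → Disjoint _
        ((Fin.cons S0 fun i => S i \ S0 : Fin (k + 1) → Set V) j)) hij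
      · exact fun h => absurd rfl h
      · intro _
        rw [Fin.cons_zero, Fin.cons_succ]
        exact Set.disjoint_sdiff_right
    · intro hij
      refine Fin.cases ?_ (fun j => ?_) j (motive := fun j => i.succ ≠ j → Disjoint _
        ((Fin.cons S0 fun i => S i \ S0 : Fin (k + 1) → Set V) j)) hij
      · intro _
        rw [Fin.cons_zero, Fin.cons_succ]
        exact Set.disjoint_sdiff_left
      · intro hij
        rw [Fin.cons_succ, Fin.cons_succ]
        exact (hS1 i j fun h => hij (h ▸ rfl)).mono Set.sdiff_subset Set.sdiff_subset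
  · intro i
    refine Fin.cases ?_ (fun i => ?_) i
    · rw [Fin.cons_zero]
      exact h1
    · rw [Fin.cons_succ]
      have := hS2 i
      rw [res_res] at this
      rw [Set.sdiff_eq, Set.inter_comm]
      exact this
  · refine (Finset.card_union_le _ _).trans ?_
    omega
  · rw [Finset.coe_union]
    apply h3
    rw [Set.compl_union]
    rw [res_res] at hX2
    exact hX2

theorem res_compl {G : SimpleGraph V} {X : Set V} {v : V} {A : Set V} :
    res (res G (A ∪ X)ᶜ) {v}ᶜ = res G ((insert v A) ∪ X)ᶜ := by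
  rw [res_res]
  congr 1
  ext x
  simp only [Set.mem_inter_iff, Set.mem_compl_iff, Set.mem_union, Set.mem_singleton_iff,
    Set.mem_insert_iff]
  tauto

/-- A triangle with a vertex of degree at most three. -/
theorem Good.tri {G : SimpleGraph V} {v a b : V} (hva : G.Adj v a) (hvb : G.Adj v b)
    (hab : G.Adj a b)
    (hthin : ∀ x y, G.Adj v x → G.Adj v y → x ≠ a → x ≠ b → y ≠ a → y ≠ b → x = y)
    (h : Good (res G ({v, a, b} : Set V)ᶜ)) : Good G := by
  classical
  refine h.red (S0 := {v, a, b}) (X0 := {a, b}) ?_ Finset.card_le_two ?_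
  · intro hac
    have h1 : (res G {v, a, b}).Adj v a := ⟨hva, by simp, by simp⟩
    have h2 : (res G {v, a, b}).Adj a b := ⟨hab, by simp, by simp⟩
    have h3 : (res G {v, a, b}).Adj b v := ⟨hvb.symm, by simp, by simp⟩
    refine hac (Walk.cons h1 (Walk.cons h2 (Walk.cons h3 Walk.nil))) ?_
    have e1 := hva.ne
    have e2 := hvb.ne
    have e3 := hab.ne
    simp [Walk.isCycle_def, Walk.isTrail_def, e1, e2, e3, e1.symm, e2.symm, e3.symm]
  · intro X hX
    refine pend (w := v) ?_ ?_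
    · rintro x y ⟨hx, -, hx'⟩ ⟨hy, -, hy'⟩
      simp only [Finset.coe_insert, Finset.coe_singleton, Set.mem_compl_iff, Set.mem_union,
        Set.mem_insert_iff, Set.mem_singleton_iff, not_or] at hx' hy'
      exact hthin x y hx hy hx'.1.1 hx'.1.2 hy'.1.1 hy'.1.2
    · rw [res_compl]
      simpa using hX

/-- Two vertices of degree at most three with two common neighbours. -/
theorem Good.quad {G : SimpleGraph V} {v w a b : V} (hva : G.Adj v a) (hvb : G.Adj v b)
    (hwa : G.Adj w a) (hwb : G.Adj w b) (hvw : v ≠ w) (hab : a ≠ b)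
    (hthin : ∀ x y, G.Adj v x → G.Adj v y → x ≠ a → x ≠ b → y ≠ a → y ≠ b → x = y)
    (hthin' : ∀ x y, G.Adj w x → G.Adj w y → x ≠ a → x ≠ b → y ≠ a → y ≠ b → x = y)
    (h : Good (res G ({v, w, a, b} : Set V)ᶜ)) : Good G := by
  classical
  refine h.red (S0 := {v, w, a, b}) (X0 := {a, b}) ?_ Finset.card_le_two ?_
  · intro hac
    have h1 : (res G {v, w, a, b}).Adj v a := ⟨hva, by simp, by simp⟩
    have h2 : (res G {v, w, a, b}).Adj a w := ⟨hwa.symm, by simp, by simp⟩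
    have h3 : (res G {v, w, a, b}).Adj w b := ⟨hwb, by simp, by simp⟩
    have h4 : (res G {v, w, a, b}).Adj b v := ⟨hvb.symm, by simp, by simp⟩
    refine hac (Walk.cons h1 (Walk.cons h2 (Walk.cons h3 (Walk.cons h4 Walk.nil)))) ?_
    have e1 := hva.ne
    have e2 := hvb.ne
    have e3 := hwa.ne
    have e4 := hwb.ne
    simp [Walk.isCycle_def, Walk.isTrail_def, e1, e2, e3, e4, e1.symm, e2.symm, e3.symm, e4.symm,
      hvw, hab, hvw.symm, hab.symm]
  · intro X hX
    refine pend (w := w) ?_ ?_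
    · rintro x y ⟨hx, -, hx'⟩ ⟨hy, -, hy'⟩
      simp only [Finset.coe_insert, Finset.coe_singleton, Set.mem_compl_iff, Set.mem_union,
        Set.mem_insert_iff, Set.mem_singleton_iff, not_or] at hx' hy'
      exact hthin' x y hx hy hx'.1.1 hx'.1.2 hy'.1.1 hy'.1.2
    rw [res_compl]
    refine pend (w := v) ?_ ?_
    · rintro x y ⟨hx, -, hx'⟩ ⟨hy, -, hy'⟩
      simp only [Finset.coe_insert, Finset.coe_singleton, Set.mem_compl_iff, Set.mem_union,
        Set.mem_insert_iff, Set.mem_singleton_iff, not_or] at hx' hy'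
      exact hthin x y hx hy hx'.1.2.1 hx'.1.2.2 hy'.1.2.1 hy'.1.2.2
    · rw [res_compl]
      simpa using hX

/-- Suppression of a vertex of degree two. -/
theorem Good.supp {G : SimpleGraph V} {v a b : V} (hva : G.Adj v a) (hvb : G.Adj v b)
    (hab : a ≠ b) (hadj : ¬ G.Adj a b) (hdeg : ∀ x, G.Adj v x → x = a ∨ x = b)
    (h : Good (res G {v}ᶜ ⊔ edge a b)) : Good G := by
  classical
  have e1 := hva.ne
  have e2 := hvb.ne
  have key : ∀ T : Set V, v ∈ T → a ∈ T → b ∈ T →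
      ((res G T).IsAcyclic ↔ (res (res G {v}ᶜ ⊔ edge a b) T).IsAcyclic) := by
    intro T hv ha hb
    have h1 : res G T = res G (T \ {v}) ⊔ edge v a ⊔ edge v b := by
      ext x y
      simp only [sup_adj, res_adj, edge_adj, Set.mem_sdiff, Set.mem_singleton_iff]
      constructor
      · rintro ⟨h1, h2, h3⟩
        by_cases hx : x = v
        · subst hx
          rcases hdeg y h1 with rfl | rfl
          · exact Or.inl (Or.inr ⟨Or.inl ⟨rfl, rfl⟩, e1⟩)
          · exact Or.inr ⟨Or.inl ⟨rfl, rfl⟩, e2⟩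
        · by_cases hy : y = v
          · subst hy
            rcases hdeg x h1.symm with rfl | rfl
            · exact Or.inl (Or.inr ⟨Or.inr ⟨rfl, rfl⟩, e1.symm⟩)
            · exact Or.inr ⟨Or.inr ⟨rfl, rfl⟩, e2.symm⟩
          · exact Or.inl (Or.inl ⟨h1, ⟨h2, hx⟩, ⟨h3, hy⟩⟩)
      · rintro ((⟨h1, h2, h3⟩ | ⟨⟨rfl, rfl⟩ | ⟨rfl, rfl⟩, -⟩) | ⟨⟨rfl, rfl⟩ | ⟨rfl, rfl⟩, -⟩)
        · exact ⟨h1, h2.1, h3.1⟩
        · exact ⟨hva, hv, ha⟩
        · exact ⟨hva.symm, ha, hv⟩
        · exact ⟨hvb, hv, hb⟩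
        · exact ⟨hvb.symm, hb, hv⟩
    have h2 : res (res G {v}ᶜ ⊔ edge a b) T = res G (T \ {v}) ⊔ edge a b := by
      ext x y
      simp only [sup_adj, res_adj, edge_adj, Set.mem_sdiff, Set.mem_singleton_iff,
        Set.mem_compl_iff]
      constructor
      · rintro ⟨⟨h1, h2, h3⟩ | ⟨h1, h2⟩, h4, h5⟩
        · exact Or.inl ⟨h1, ⟨h4, h2⟩, ⟨h5, h3⟩⟩
        · exact Or.inr ⟨h1, h2⟩
      · rintro (⟨h1, h2, h3⟩ | ⟨⟨rfl, rfl⟩ | ⟨rfl, rfl⟩, h'⟩)
        · exact ⟨Or.inl ⟨h1, h2.2, h3.2⟩, h2.1, h3.1⟩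
        · exact ⟨Or.inr ⟨Or.inl ⟨rfl, rfl⟩, h'⟩, ha, hb⟩
        · exact ⟨Or.inr ⟨Or.inr ⟨rfl, rfl⟩, h'⟩, hb, ha⟩
    rw [h1, h2]
    exact subdiv (fun y hy => hy.2.1.2 rfl) e1 e2 hab fun hy => hadj hy.1
  obtain ⟨k, ⟨S, hS1, hS2⟩, ⟨X, hX1, hX2⟩⟩ := h
  refine ⟨k, ⟨fun i => if a ∈ S i ∧ b ∈ S i then insert v (S i) else S i \ {v}, ?_, ?_⟩,
    ⟨X, hX1, ?_⟩⟩
  · intro i j hij
    have h1 := hS1 i j hij
    dsimp only
    split_ifs with h2 h3 h3
    · exact absurd h3.1 (Set.disjoint_left.1 h1 h2.1)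
    · rw [Set.disjoint_left] at h1 ⊢
      rintro x (rfl | hx) hx'
      · exact hx'.2 rfl
      · exact h1 hx hx'.1
    · rw [Set.disjoint_left] at h1 ⊢
      rintro x hx (rfl | hx')
      · exact hx.2 rfl
      · exact h1 hx.1 hx'
    · exact h1.mono Set.sdiff_subset Set.sdiff_subset
  · intro i
    have h1 := hS2 i
    dsimp only
    split_ifs with h2
    · rw [key (insert v (S i)) (Set.mem_insert _ _) (Set.mem_insert_of_mem _ h2.1)
        (Set.mem_insert_of_mem _ h2.2)]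
      exact fun h3 => h1 (h3.anti (res_mono le_rfl (Set.subset_insert _ _)))
    · refine fun h3 => h1 (h3.anti ?_)
      rintro x y ⟨h4, h5, h6⟩
      rw [sup_adj, edge_adj] at h4
      rcases h4 with h4 | ⟨⟨rfl, rfl⟩ | ⟨rfl, rfl⟩, -⟩
      · exact ⟨h4.1, ⟨h5, h4.2.1⟩, ⟨h6, h4.2.2⟩⟩
      · exact absurd ⟨h5, h6⟩ h2
      · exact absurd ⟨h6, h5⟩ h2
  · by_cases hv : v ∈ X
    · refine hX2.anti ?_
      rintro x y ⟨h1, h2, h3⟩
      refine ⟨Or.inl ⟨h1, ?_, ?_⟩, h2, h3⟩
      · rintro rfl; exact h2 hv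
      · rintro rfl; exact h3 hv
    by_cases hab' : a ∈ X ∨ b ∈ X
    · refine pend (w := v) ?_ ?_
      · rintro x y ⟨hx, -, hx'⟩ ⟨hy, -, hy'⟩
        rcases hab' with h1 | h1
        · have hxb : x = b := (hdeg x hx).resolve_left (by rintro rfl; exact hx' h1)
          have hyb : y = b := (hdeg y hy).resolve_left (by rintro rfl; exact hy' h1)
          rw [hxb, hyb]
        · have hxb : x = a := (hdeg x hx).resolve_right (by rintro rfl; exact hx' h1)
          have hyb : y = a := (hdeg y hy).resolve_right (by rintro rfl; exact hy' h1)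
          rw [hxb, hyb]
      · refine hX2.anti ?_
        rintro x y ⟨⟨h1, h2, h3⟩, h4, h5⟩
        exact ⟨Or.inl ⟨h1, h4, h5⟩, h2, h3⟩
    · push Not at hab'
      rw [key (X : Set V)ᶜ hv hab'.1 hab'.2]
      exact hX2

end Pool.Agent.Helper19.Jones
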