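import Pool.Agent.Helper19.Jones.TD

/-!
# Jones' inequality for graphs of treewidth at most three
-/

namespace Pool.Agent.Helper19.Jones

open SimpleGraph

variable {V ι : Type*}

theorem card_lt [Finite V] {G G' : SimpleGraph V} (hle : G' ≤ G) {x y : V} (h : G.Adj x y)
    (h' : ¬ G'.Adj x y) : G'.edgeSet.ncard < G.edgeSet.ncard := by
  refine Set.ncard_lt_ncard ⟨edgeSet_mono hle, fun h1 => ?_⟩ (Set.toFinite _)
  exact h' (h1 (show s(x, y) ∈ G.edgeSet from h))

theorem card_supp [Finite V] {G : SimpleGraph V} {v a b : V} (hva : G.Adj v a) (hvb : G.Adj v b)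
    (hab : a ≠ b) : (res G {v}ᶜ ⊔ SimpleGraph.edge a b).edgeSet.ncard < G.edgeSet.ncard := by
  have hv : ∀ x, s(v, x) ∉ (res G {v}ᶜ).edgeSet := by
    intro x hx
    rw [mem_edgeSet] at hx
    exact hx.2.1 rfl
  have hne : s(v, a) ≠ s(v, b) := by
    intro h
    rw [Sym2.eq_iff] at h
    rcases h with ⟨-, h⟩ | ⟨h, -⟩
    · exact hab h
    · exact hvb.ne h
  have h1 : (insert s(v, a) (insert s(v, b) (res G {v}ᶜ).edgeSet)).ncard ≤ G.edgeSet.ncard := by
    refine Set.ncard_le_ncard ?_ (Set.toFinite _)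
    refine Set.insert_subset hva (Set.insert_subset hvb (edgeSet_mono res_le))
  rw [Set.ncard_insert_of_notMem _ (Set.toFinite _), Set.ncard_insert_of_notMem (hv b)
    (Set.toFinite _)] at h1
  · have h2 : (res G {v}ᶜ ⊔ SimpleGraph.edge a b).edgeSet ⊆
        insert s(a, b) (res G {v}ᶜ).edgeSet := by
      intro e
      induction e with
      | _ x y =>
        intro he
        rw [mem_edgeSet, sup_adj, edge_adj] at he
        rcases he with he | ⟨⟨rfl, rfl⟩ | ⟨rfl, rfl⟩, -⟩
        · exact Or.inr he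
        · exact Or.inl rfl
        · exact Or.inl Sym2.eq_swap
    have h3 := Set.ncard_le_ncard h2 (Set.toFinite _)
    have h4 := Set.ncard_insert_le s(a, b) (res G {v}ᶜ).edgeSet
    omega
  · rintro (h | h)
    · exact hne h
    · exact hv a h

theorem thin_of [Finite V] {G : SimpleGraph V} {v a b : V} (h : (G.neighborSet v).ncard ≤ 3)
    (hva : G.Adj v a) (hvb : G.Adj v b) (hab : a ≠ b) :
    ∀ x y, G.Adj v x → G.Adj v y → x ≠ a → x ≠ b → y ≠ a → y ≠ b → x = y := by
  classical
  intro x y hx hy h1 h2 h3 h4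
  by_contra hxy
  have h5 : (({a, b, x, y} : Finset V) : Set V) ⊆ G.neighborSet v := by
    intro z hz
    simp only [Finset.coe_insert, Finset.coe_singleton, Set.mem_insert_iff,
      Set.mem_singleton_iff] at hz
    rw [mem_neighborSet]
    rcases hz with rfl | rfl | rfl | rfl
    · exact hva
    · exact hvb
    · exact hx
    · exact hy
  have h6 := Set.ncard_le_ncard h5 (Set.toFinite _)
  rw [Set.ncard_coe_finset] at h6
  have h7 : ({a, b, x, y} : Finset V).card = 4 := by
    rw [Finset.card_insert_of_notMem, Finset.card_insert_of_notMem, Finset.card_insert_of_notMem,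
      Finset.card_singleton]
    · simp [hxy]
    · simp [h2.symm, h4.symm]
    · simp [hab, h1.symm, h3.symm]
  omega

theorem TD.good [Finite V] {par : ι → ι} {dep : ι → ℕ} (n : ℕ) : ∀ {S : V → Set ι}
    {G : SimpleGraph V}, TD par dep S G → G.edgeSet.ncard = n → Good G := by
  induction n using Nat.strong_induction_on with
  | _ n ih =>
    intro S G h hn
    by_cases hne : ∃ x y, G.Adj x y
    swap
    · have : G = ⊥ := by
        ext x y
        simp only [bot_adj, iff_false]
        exact fun h => hne ⟨x, y, h⟩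
      rw [this]
      exact Good.bot
    have tri : ∀ v a b, (G.neighborSet v).ncard ≤ 3 → G.Adj v a → G.Adj v b → G.Adj a b →
        Good G := by
      intro v a b hv hva hvb hab
      refine Good.tri hva hvb hab (thin_of hv hva hvb hab.ne) ?_
      refine ih _ (hn ▸ card_lt res_le hva ?_) (h.mono res_le) rfl
      exact fun h1 => h1.2.1 (by simp)
    by_cases c1 : ∃ v x, G.Adj v x ∧ (G.neighborSet v).ncard ≤ 1
    · obtain ⟨v, x, hvx, hv⟩ := c1
      refine Good.deg1 (v := v) ?_ ?_
      · intro y z hy hz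
        exact (Set.ncard_le_one (Set.toFinite _)).1 hv y hy z hz
      · refine ih _ (hn ▸ card_lt res_le hvx ?_) (h.mono res_le) rfl
        exact fun h1 => h1.2.1 rfl
    by_cases c2 : ∃ v, (G.neighborSet v).ncard = 2
    · obtain ⟨v, hv⟩ := c2
      obtain ⟨a, b, hab, hN⟩ := Set.ncard_eq_two.1 hv
      have hva : G.Adj v a := by
        rw [← mem_neighborSet, hN]; exact Or.inl rfl
      have hvb : G.Adj v b := by
        rw [← mem_neighborSet, hN]; exact Or.inr rfl
      by_cases hadj : G.Adj a b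
      · exact tri v a b (by omega) hva hvb hadj
      · obtain ⟨S', hS'⟩ := h.merge hva hvb hab
        refine Good.supp hva hvb hab hadj ?_ (ih _ (hn ▸ card_supp hva hvb hab) hS' rfl)
        intro x hx
        rw [← mem_neighborSet, hN] at hx
        exact hx
    by_cases c3 : ∃ v a b, (G.neighborSet v).ncard ≤ 3 ∧ G.Adj v a ∧ G.Adj v b ∧ G.Adj a b
    · obtain ⟨v, a, b, h1, h2, h3, h4⟩ := c3
      exact tri v a b h1 h2 h3 h4
    by_cases c4 : ∃ v w a b, (G.neighborSet v).ncard ≤ 3 ∧ (G.neighborSet w).ncard ≤ 3 ∧ v ≠ w ∧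
        a ≠ b ∧ G.Adj v a ∧ G.Adj v b ∧ G.Adj w a ∧ G.Adj w b
    · obtain ⟨v, w, a, b, h1, h2, h3, h4, h5, h6, h7, h8⟩ := c4
      refine Good.quad h5 h6 h7 h8 h3 h4 (thin_of h1 h5 h6 h4) (thin_of h2 h7 h8 h4) ?_
      refine ih _ (hn ▸ card_lt res_le h5 ?_) (h.mono res_le) rfl
      exact fun h1 => h1.2.1 (by simp)
    · exfalso
      refine h.config hne ?_ ?_ ?_
      · rintro v ⟨x, hx⟩
        have h1 : ¬ (G.neighborSet v).ncard ≤ 1 := fun h1 => c1 ⟨v, x, hx, h1⟩
        have h2 : (G.neighborSet v).ncard ≠ 2 := fun h2 => c2 ⟨v, h2⟩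
        omega
      · exact fun v a b h1 h2 h3 h4 => c3 ⟨v, a, b, h1, h2, h3, h4⟩
      · exact fun v w a b h1 h2 h3 h4 h5 h6 h7 h8 => c4 ⟨v, w, a, b, h1, h2, h3, h4, h5, h6, h7, h8⟩

/-! ### From tree decompositions to rooted tree decompositions -/

section Tree

variable {T : SimpleGraph ι}

theorem closer_unique (hT : T.IsTree) {r x s y : ι} (hs : T.Adj x s) (hy : T.Adj x y)
    (h1 : T.dist r x = T.dist r s + 1) (h2 : T.dist r x = T.dist r y + 1) : s = y := by
  classical
  have hnot : ∀ z (p : T.Walk r z), p.length = T.dist r z → T.dist r x = T.dist r z + 1 →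
      x ∉ p.support := by
    intro z p hp hz hx
    have h3 := dist_le (p.takeUntil x hx)
    have h4 := p.length_takeUntil_le_length hx
    omega
  obtain ⟨p, hp, hp'⟩ := (hT.connected r s).exists_path_of_dist
  obtain ⟨q, hq, hq'⟩ := (hT.connected r y).exists_path_of_dist
  have hpx := hnot s p hp' h1
  have hqx := hnot y q hq' h2
  have hP : (p.concat hs.symm).IsPath := hp.concat hpx hs.symm
  have h3 := hT.isAcyclic.mem_support_of_ne_mem_support_of_adj_of_isPath hP hq hy hqx
  have h4 := hT.isAcyclic.eq_penultimate_of_adj_end hP hy h3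
  rw [h4, Walk.penultimate_concat]

theorem incr (hT : T.IsTree) {r : ι} {x t : ι} (q : T.Walk x t) : ∀ {s : ι} (hadj : T.Adj s x),
    (Walk.cons hadj q).IsPath → T.dist r x = T.dist r s + 1 → T.dist r s < T.dist r t := by
  induction q with
  | nil =>
    intro s hadj _ h
    omega
  | @cons x y t h2 q ih =>
    intro s hadj hp h
    rw [Walk.cons_isPath_iff] at hp
    rcases hT.dist_eq_dist_add_one_of_adj r h2 with h3 | h3
    · have h4 := closer_unique hT hadj.symm h2 h h3
      exfalso
      apply hp.2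
      rw [h4, Walk.support_cons]
      exact List.mem_cons_of_mem _ q.start_mem_support
    · have := ih h2 hp.1 h3
      omega

theorem exists_rooted (hT : T.IsTree) : ∃ (par : ι → ι) (dep : ι → ℕ), ∀ A : Set ι,
    A.Nonempty → (T.induce A).Preconnected →
    ∃ t ∈ A, ∀ s ∈ A, s ≠ t → par s ∈ A ∧ dep (par s) < dep s := by
  classical
  obtain ⟨r⟩ := hT.connected.nonempty
  let par : ι → ι := fun t => if h : ∃ y, T.Adj t y ∧ T.dist r t = T.dist r y + 1 then h.choose
    else t
  have hpar : ∀ s x, T.Adj s x → T.dist r s = T.dist r x + 1 → par s = x := by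
    intro s x hsx hd
    have h : ∃ y, T.Adj s y ∧ T.dist r s = T.dist r y + 1 := ⟨x, hsx, hd⟩
    have h1 : par s = h.choose := dif_pos h
    rw [h1]
    exact closer_unique hT h.choose_spec.1 hsx h.choose_spec.2 hd
  refine ⟨par, fun t => T.dist r t, fun A hA hc => ?_⟩
  obtain ⟨t, ht, hmin⟩ := (measure fun t => T.dist r t).wf.has_min A hA
  refine ⟨t, ht, fun s hs hst => ?_⟩
  obtain ⟨p⟩ := hc ⟨s, hs⟩ ⟨t, ht⟩
  let p' : T.Walk s t := p.map (Embedding.induce A).toHom
  have hp' : ∀ x ∈ p'.support, x ∈ A := by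
    intro x hx
    have hx1 : x ∈ (p.map (Embedding.induce A).toHom).support := hx
    rw [Walk.support_map, List.mem_map] at hx1
    obtain ⟨y, -, rfl⟩ := hx1
    exact y.2
  have hq := p'.bypass_isPath
  have hqs : ∀ x ∈ p'.bypass.support, x ∈ A := fun x hx => hp' x (p'.support_bypass_subset_support hx)
  revert hq hqs
  generalize p'.bypass = q
  intro hq hqs
  cases q with
  | nil => exact absurd rfl hst
  | @cons _ x _ hadj q =>
    have hx : x ∈ A := hqs x (by
      rw [Walk.support_cons]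
      exact List.mem_cons_of_mem _ q.start_mem_support)
    rcases hT.dist_eq_dist_add_one_of_adj r hadj with h3 | h3
    · rw [hpar s x hadj h3]
      refine ⟨hx, ?_⟩
      show T.dist r x < T.dist r s
      omega
    · have h4 := incr hT q hadj hq h3
      exact absurd h4 (hmin s hs)

end Tree

theorem res_support {G : SimpleGraph V} {S : Set V} {u w : V} (p : (res G S).Walk u w) :
    u ∈ S → ∀ x ∈ p.support, x ∈ S := by
  induction p with
  | nil =>
    intro hu x hx
    rw [Walk.support_nil, List.mem_singleton] at hx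
    rw [hx]
    exact hu
  | cons h _ ih =>
    intro hu x hx
    rw [Walk.support_cons, List.mem_cons] at hx
    rcases hx with rfl | hx
    · exact hu
    · exact ih h.2.2 x hx

theorem exists_cycle {G : SimpleGraph V} {S : Set V} (h : ¬ (res G S).IsAcyclic) :
    ∃ c : Σ v : V, G.Walk v v, c.2.IsCycle ∧ ∀ x ∈ c.2.support, x ∈ S := by
  unfold IsAcyclic at h
  push Not at h
  obtain ⟨v, c, hc⟩ := h
  refine ⟨⟨v, c.mapLe res_le⟩, hc.mapLe res_le, ?_⟩
  intro x hx
  have hx' : x ∈ c.support := by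
    simpa using hx
  cases c with
  | nil => exact absurd rfl hc.ne_nil
  | cons h p => exact res_support _ h.2.1 x hx'

theorem Good.final [Finite V] {G : SimpleGraph V} (h : Good G) (k : ℕ)
    (hk : ¬ ∃ c : Fin (k + 1) → Σ v : V, G.Walk v v,
      (∀ i, (c i).2.IsCycle) ∧
      ∀ i j, i ≠ j → ∀ w, w ∈ (c i).2.support → w ∉ (c j).2.support) :
    ∃ X : Finset V, X.card ≤ 2 * k ∧ (G.induce ((↑X : Set V)ᶜ)).IsAcyclic := by
  obtain ⟨k0, ⟨S, hS1, hS2⟩, ⟨X, hX1, hX2⟩⟩ := h
  have hle : k0 ≤ k := by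
    by_contra hcon
    push Not at hcon
    apply hk
    choose c hc1 hc2 using fun i : Fin (k + 1) => exists_cycle (hS2 (Fin.castLE hcon i))
    refine ⟨c, hc1, fun i j hij w hw hw' => ?_⟩
    have h1 := hS1 (Fin.castLE hcon i) (Fin.castLE hcon j)
      (fun h => hij (Fin.castLE_injective hcon h))
    exact Set.disjoint_left.1 h1 (hc2 i w hw) (hc2 j w hw')
  refine ⟨X, by omega, ?_⟩
  let f : G.induce ((↑X : Set V)ᶜ) →g res G (X : Set V)ᶜ :=
    ⟨Subtype.val, fun {a b} h => ⟨h, a.2, b.2⟩⟩
  exact hX2.comap f Subtype.val_injective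

end Pool.Agent.Helper19.Jones
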