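import Pool.Agent.Helper19.Jones.Basic

/-!
# Rooted tree decompositions of width three
-/

namespace Pool.Agent.Helper19.Jones

open SimpleGraph

variable {V ι : Type*}

/-- A rooted tree decomposition of width at most three: `S v` is the set of the nodes whose bag
contains `v`. -/
structure TD (par : ι → ι) (dep : ι → ℕ) (S : V → Set ι) (G : SimpleGraph V) : Prop where
  top : ∀ v, (S v).Nonempty → ∃ t ∈ S v, ∀ s ∈ S v, s ≠ t → par s ∈ S v ∧ dep (par s) < dep s
  bag : ∀ t, {v | t ∈ S v}.ncard ≤ 4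
  edge : ∀ u v, G.Adj u v → (S u ∩ S v).Nonempty

theorem TD.mono {par : ι → ι} {dep : ι → ℕ} {S : V → Set ι} {G G' : SimpleGraph V}
    (h : TD par dep S G) (hG : G' ≤ G) : TD par dep S G' :=
  ⟨h.top, h.bag, fun u v huv => h.edge u v (hG huv)⟩

section Top

variable {par : ι → ι} {dep : ι → ℕ}

/-- `t` is the top of `A`. -/
def IsTop (par : ι → ι) (dep : ι → ℕ) (A : Set ι) (t : ι) : Prop :=
  t ∈ A ∧ ∀ s ∈ A, s ≠ t → par s ∈ A ∧ dep (par s) < dep s

theorem IsTop.le {A : Set ι} {t : ι} (h : IsTop par dep A t) : ∀ n, ∀ s ∈ A, dep s = n →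
    dep t ≤ dep s := by
  intro n
  induction n using Nat.strong_induction_on with
  | _ n ih =>
    intro s hs hn
    by_cases h1 : s = t
    · rw [h1]
    · obtain ⟨h2, h3⟩ := h.2 s hs h1
      exact (ih _ (hn ▸ h3) _ h2 rfl).trans h3.le

theorem IsTop.mem {A B : Set ι} {t t' : ι} (hA : IsTop par dep A t) (hB : IsTop par dep B t')
    (hd : dep t' ≤ dep t) : ∀ n, ∀ s ∈ A, s ∈ B → dep s = n → t ∈ B := by
  intro n
  induction n using Nat.strong_induction_on with
  | _ n ih =>
    intro s hs hs' hn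
    by_cases h1 : s = t
    · rw [← h1]
      exact hs'
    · obtain ⟨h2, h3⟩ := hA.2 s hs h1
      have h4 := hA.le _ _ h2 rfl
      have h5 : s ≠ t' := by
        rintro rfl
        omega
      exact ih _ (hn ▸ h3) _ h2 (hB.2 s hs' h5).1 rfl

theorem IsTop.union {A B : Set ι} {t t' : ι} (hA : IsTop par dep A t) (hB : IsTop par dep B t')
    (hd : dep t' ≤ dep t) {s : ι} (hs : s ∈ A) (hs' : s ∈ B) : IsTop par dep (A ∪ B) t' := by
  refine ⟨Or.inr hB.1, ?_⟩
  have ht : t ∈ B := hA.mem hB hd _ s hs hs' rfl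
  rintro r (hr | hr) hne
  · by_cases h1 : r = t
    · subst h1
      obtain ⟨h2, h3⟩ := hB.2 r ht hne
      exact ⟨Or.inr h2, h3⟩
    · obtain ⟨h2, h3⟩ := hA.2 r hr h1
      exact ⟨Or.inl h2, h3⟩
  · obtain ⟨h2, h3⟩ := hB.2 r hr hne
    exact ⟨Or.inr h2, h3⟩

end Top

/-- Merging `v` into `a`. -/
theorem TD.merge [Finite V] {par : ι → ι} {dep : ι → ℕ} {S : V → Set ι} {G : SimpleGraph V}
    (h : TD par dep S G) {v a b : V} (hva : G.Adj v a) (hvb : G.Adj v b) (hab : a ≠ b) :
    ∃ S', TD par dep S' (res G {v}ᶜ ⊔ SimpleGraph.edge a b) := by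
  classical
  have e1 := hva.ne
  have e2 := hvb.ne
  obtain ⟨s0, hs1, hs2⟩ := h.edge v a hva
  refine ⟨fun x => if x = v then ∅ else if x = a then S a ∪ S v else S x, ?_, ?_, ?_⟩
  · intro x hx
    split_ifs at hx ⊢ with h1 h2
    · exact absurd hx Set.not_nonempty_empty
    · obtain ⟨ta, hta, hta'⟩ := h.top a ⟨s0, hs2⟩
      obtain ⟨tv, htv, htv'⟩ := h.top v ⟨s0, hs1⟩
      rcases le_total (dep ta) (dep tv) with h3 | h3
      · have := IsTop.union (par := par) (dep := dep) (A := S v) (B := S a) ⟨htv, htv'⟩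
          ⟨hta, hta'⟩ h3 hs1 hs2
        rw [Set.union_comm] at this
        exact ⟨ta, this⟩
      · exact ⟨tv, IsTop.union (par := par) (dep := dep) (A := S a) (B := S v) ⟨hta, hta'⟩
          ⟨htv, htv'⟩ h3 hs2 hs1⟩
    · exact h.top x hx
  · intro t
    by_cases ht : t ∈ S v
    · have h1 : {x | t ∈ (if x = v then (∅ : Set ι) else if x = a then S a ∪ S v
          else S x)} ⊆ insert a ({x | t ∈ S x} \ {v}) := by
        intro x hx
        simp only [Set.mem_ofPred_eq] at hx
        split_ifs at hx with h1 h2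
        · exact absurd hx (Set.notMem_empty _)
        · exact Or.inl h2
        · exact Or.inr ⟨hx, h1⟩
      have h2 := Set.ncard_le_ncard h1 (Set.toFinite _)
      have h3 := Set.ncard_insert_le a ({x | t ∈ S x} \ {v})
      have h4 : ({x | t ∈ S x} \ {v}).ncard + 1 = {x | t ∈ S x}.ncard :=
        Set.ncard_sdiff_singleton_add_one ht (Set.toFinite _)
      have h5 := h.bag t
      omega
    · refine (Set.ncard_le_ncard ?_ (Set.toFinite _)).trans (h.bag t)
      intro x hx
      simp only [Set.mem_ofPred_eq] at hx ⊢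
      split_ifs at hx with h1 h2
      · exact absurd hx (Set.notMem_empty _)
      · rw [h2]
        exact hx.resolve_right ht
      · exact hx
  · have hsub : ∀ x, x ≠ v → S x ⊆ (if x = v then (∅ : Set ι) else if x = a then S a ∪ S v
        else S x) := by
      intro x hx
      rw [if_neg hx]
      split_ifs with h2
      · rw [h2]
        exact Set.subset_union_left
      · exact Set.Subset.refl _
    obtain ⟨s1, hs3, hs4⟩ := h.edge v b hvb
    have hab' : ((if a = v then (∅ : Set ι) else if a = a then S a ∪ S v else S a) ∩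
        (if b = v then (∅ : Set ι) else if b = a then S a ∪ S v else S b)).Nonempty := by
      rw [if_neg e1.symm, if_pos rfl, if_neg e2.symm, if_neg hab.symm]
      exact ⟨s1, Or.inr hs3, hs4⟩
    intro x y hxy
    rw [sup_adj, res_adj, edge_adj] at hxy
    rcases hxy with ⟨h1, h2, h3⟩ | ⟨⟨rfl, rfl⟩ | ⟨rfl, rfl⟩, -⟩
    · exact (h.edge x y h1).mono (Set.inter_subset_inter (hsub x h2) (hsub y h3))
    · exact hab'
    · rw [Set.inter_comm]
      exact hab'

/-- A minimal configuration. -/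
theorem TD.config [Finite V] {par : ι → ι} {dep : ι → ℕ} {S : V → Set ι} {G : SimpleGraph V}
    (h : TD par dep S G) (hne : ∃ x y, G.Adj x y)
    (h1 : ∀ v, (∃ x, G.Adj v x) → 3 ≤ (G.neighborSet v).ncard)
    (h2 : ∀ v a b, (G.neighborSet v).ncard ≤ 3 → G.Adj v a → G.Adj v b → ¬ G.Adj a b)
    (h3 : ∀ v w a b, (G.neighborSet v).ncard ≤ 3 → (G.neighborSet w).ncard ≤ 3 → v ≠ w → a ≠ b →
      G.Adj v a → G.Adj v b → G.Adj w a → ¬ G.Adj w b) : False := by
  classical
  -- the tops
  have htop : ∀ v : V, ∃ t : ι, (S v).Nonempty → IsTop par dep (S v) t := by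
    intro v
    by_cases hv : (S v).Nonempty
    · obtain ⟨t, ht⟩ := h.top v hv
      exact ⟨t, fun _ => ht⟩
    · obtain ⟨x, y, hxy⟩ := hne
      obtain ⟨s, -⟩ := h.edge x y hxy
      exact ⟨s, fun h => absurd h hv⟩
  choose τ hτ using htop
  have hτ' : ∀ {u v : V}, G.Adj u v → IsTop par dep (S u) (τ u) := fun {u v} huv =>
    hτ u ((h.edge u v huv).mono Set.inter_subset_left)
  obtain ⟨e⟩ : Nonempty (V ↪ ℕ) := by
    have := Fintype.ofFinite V
    exact ⟨(Fintype.equivFin V).toEmbedding.trans Fin.valEmbedding⟩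
  -- `u` is earlier than `v`
  let lt : V → V → Prop := fun u v => dep (τ v) < dep (τ u) ∨ dep (τ v) = dep (τ u) ∧ e u < e v
  have hirr : ∀ u, ¬ lt u u := by
    rintro u (h4 | ⟨-, h4⟩) <;> omega
  have htri : ∀ u v, u ≠ v → lt u v ∨ lt v u := by
    intro u v huv
    have h4 : e u ≠ e v := fun h5 => huv (e.injective h5)
    show (_ ∨ _ ∧ _) ∨ (_ ∨ _ ∧ _)
    omega
  have hasy : ∀ u v, lt u v → ¬ lt v u := by
    rintro u v (h4 | h4) (h5 | h5) <;> omega
  have htrans : ∀ u v w, lt u v → lt v w → lt u w := by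
    rintro u v w h4 h5
    show _ ∨ _ ∧ _
    rcases h4 with h4 | h4 <;> rcases h5 with h5 | h5 <;> omega
  have hdle : ∀ u v, lt u v → dep (τ v) ≤ dep (τ u) := by
    rintro u v (h4 | h4) <;> omega
  -- later vertices sharing a bag
  have hbag : ∀ u v s, lt u v → IsTop par dep (S u) (τ u) → IsTop par dep (S v) (τ v) → s ∈ S u →
      s ∈ S v → τ u ∈ S v := fun u v s h4 h5 h6 h7 h8 => h5.mem h6 (hdle u v h4) _ s h7 h8 rfl
  have hbag' : ∀ u v, G.Adj u v → lt u v → τ u ∈ S v := by
    intro u v huv h4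
    obtain ⟨s, hs1, hs2⟩ := h.edge u v huv
    exact hbag u v s h4 (hτ' huv) (hτ' huv.symm) hs1 hs2
  -- a vertex with an earlier neighbour, minimal
  have hwf : ∃ u, (∃ w, G.Adj u w ∧ lt w u) ∧ ∀ u', lt u' u → ¬ ∃ w, G.Adj u' w ∧ lt w u' := by
    obtain ⟨x, y, hxy⟩ := hne
    have hne' : {u | ∃ w, G.Adj u w ∧ lt w u}.Nonempty := by
      rcases htri x y hxy.ne with h4 | h4
      · exact ⟨y, x, hxy.symm, h4⟩
      · exact ⟨x, y, hxy, h4⟩
    have hir : Std.Irrefl lt := ⟨hirr⟩
    have htr : IsTrans V lt := ⟨htrans⟩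
    have hwf : WellFounded lt := Finite.wellFounded_of_trans_of_irrefl lt
    obtain ⟨u, hu, hmin⟩ := hwf.has_min _ hne'
    exact ⟨u, hu, fun u' h5 h6 => hmin u' h6 h5⟩
  obtain ⟨u, ⟨w, huw, hwu⟩, hmin⟩ := hwf
  -- an earlier neighbour of `u`
  have hN : ∀ w, G.Adj u w → lt w u → (G.neighborSet w).ncard = 3 ∧
      G.neighborSet w ⊆ {x | τ u ∈ S x} := by
    intro w huw hwu
    have hL : ∀ x, G.Adj w x → lt w x := by
      intro x hx
      rcases htri w x hx.ne with h4 | h4
      · exact h4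
      · exact absurd ⟨x, hx, h4⟩ (hmin w hwu)
    have hsub : G.neighborSet w ⊆ {x | τ w ∈ S x} \ {w} := by
      intro x hx
      rw [mem_neighborSet] at hx
      exact ⟨hbag' w x hx (hL x hx), fun h4 => hx.ne h4.symm⟩
    have hw : w ∈ {x | τ w ∈ S x} := (hτ' huw.symm).1
    have h4 := Set.ncard_le_ncard hsub (Set.toFinite _)
    have h5 : ({x | τ w ∈ S x} \ {w}).ncard + 1 = {x | τ w ∈ S x}.ncard :=
      Set.ncard_sdiff_singleton_add_one hw (Set.toFinite _)
    have h6 := h.bag (τ w)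
    have h7 := h1 w ⟨u, huw.symm⟩
    refine ⟨by omega, ?_⟩
    intro x hx
    rw [mem_neighborSet] at hx
    by_cases hxu : x = u
    · rw [hxu]
      exact (hτ' huw).1
    have hux : lt u x := by
      rcases htri u x (Ne.symm hxu) with h8 | h8
      · exact h8
      · exact absurd ⟨w, hx.symm, hL x hx⟩ (hmin x h8)
    exact hbag u x (τ w) hux (hτ' huw) (hτ' hx.symm) (hbag' w u huw.symm hwu)
      (hbag' w x hx (hL x hx))
  obtain ⟨hw3, hwS⟩ := hN w huw hwu
  -- uniqueness of the earlier neighbour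
  have huniq : ∀ w', G.Adj u w' → lt w' u → w' = w := by
    intro w' huw' hwu'
    by_contra hne'
    obtain ⟨hw3', hwS'⟩ := hN w' huw' hwu'
    have h4 := h.bag (τ u)
    have h5 := Set.ncard_le_ncard (Set.union_subset hwS hwS') (Set.toFinite _)
    have h6 := Set.ncard_union_add_ncard_inter (G.neighborSet w) (G.neighborSet w')
    have h7 : 1 < (G.neighborSet w ∩ G.neighborSet w').ncard := by omega
    obtain ⟨a, ha, b, hb, hab⟩ := (Set.one_lt_ncard (Set.toFinite _)).1 h7
    exact h3 w w' a b hw3.le hw3'.le (Ne.symm hne') hab ha.1 hb.1 ha.2 hb.2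
  -- the later neighbours
  have hsub : G.neighborSet u ⊆ insert w ({x | τ u ∈ S x} \ G.neighborSet w) := by
    intro x hx
    rw [mem_neighborSet] at hx
    rcases htri u x hx.ne with h4 | h4
    · right
      refine ⟨hbag' u x hx h4, fun h5 => ?_⟩
      exact h2 w u x hw3.le huw.symm h5 hx
    · left
      exact huniq x hx h4
  have h4 := Set.ncard_le_ncard hsub (Set.toFinite _)
  have h5 := Set.ncard_insert_le w ({x | τ u ∈ S x} \ G.neighborSet w)
  have h6 := Set.ncard_sdiff_add_ncard_of_subset hwS (Set.toFinite _)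
  have h7 := h.bag (τ u)
  have h8 := h1 u ⟨w, huw⟩
  omega

end Pool.Agent.Helper19.Jones
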